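import Pool.Agent.V11300.KS.Count

/-!
# Equal prime counts in two consecutive windows after a prime

The conjecture fails for `n = 601088`: for every prime `p ≤ p_n` (where `p_n = 8978093` is the `n`-th prime) the
interval `(p, p + n]` contains more primes than `(p + n, p + 2 n]`.
-/

set_option autoImplicit false

namespace Pool.Agent.Results.MP_d7b30a_nt.NoEqualWindows

open Pool.Agent.V11300.KS

/-- It is false that for every integer `n > 1` there is a prime `p ≤ p_n` such that the intervals `(p, p + n]` and
`(p + n, p + 2 n]` contain the same positive number of primes. -/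
theorem result : ¬ ∀ n : ℕ, 1 < n → ∃ p : ℕ, p.Prime ∧ p ≤ Nat.nth Nat.Prime (n - 1) ∧
    Nat.primeCounting (p + 2 * n) - Nat.primeCounting (p + n) =
      Nat.primeCounting (p + n) - Nat.primeCounting p ∧
    0 < Nat.primeCounting (p + n) - Nat.primeCounting p := by
  intro hall
  obtain ⟨p, -, hle, heq, -⟩ := hall 601088 (by norm_num)
  have h2 := chk2
  rw [Bool.and_eq_true] at h2
  obtain ⟨h3, h4⟩ := h2
  have hpi : 601088 ≤ Nat.primeCounting (64 * 140283) := by
    have h5 := Nat.le_of_ble_eq_true h4
    rw [field chk0 chk1 (by norm_num) (by norm_num) (by norm_num) (by norm_num) (by norm_num) 140282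
      (by norm_num)] at h5
    exact h5
  have hp : p < 64 * 140283 := by
    have h6 : Nat.nth Nat.Prime (601088 - 1) < 64 * 140283 := by
      have h7 : (601088 - 1 : ℕ) < Nat.count Nat.Prime (64 * 140283 + 1) := by
        have : Nat.primeCounting (64 * 140283) = Nat.count Nat.Prime (64 * 140283 + 1) := rfl
        omega
      have h8 : Nat.nth Nat.Prime (601088 - 1) < 64 * 140283 + 1 := Nat.nth_lt_of_lt_count h7
      have h9 : (Nat.nth Nat.Prime (601088 - 1)).Prime := Nat.prime_nth_prime _
      have h10 : Nat.nth Nat.Prime (601088 - 1) ≠ 64 * 140283 := by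
        intro h11
        rw [h11] at h9
        exact absurd h9 (Nat.not_prime_mul (by norm_num) (by norm_num))
      omega
    omega
  have hk : p / 64 < 140283 := by omega
  have h5 := compare chk0 chk1 (by norm_num) (by norm_num) (by norm_num) (by norm_num) (by norm_num)
    (by norm_num) (by norm_num) (by norm_num) h3 (p / 64) hk
  have hx : 64 * (p / 64) ≤ p ∧ p < 64 * (p / 64) + 64 := by omega
  generalize p / 64 = x at hx h5
  have e1 : p ≤ 64 * (x + 1) := by omega
  have e2 : p + 2 * 601088 ≤ 64 * (x + 1 + 2 * 9392) := by omega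
  have e3 : 64 * (x + 9392) ≤ p + 601088 := by
    have e6 : 64 * (x + 9392) = 64 * x + 601088 := by rw [Nat.mul_add]
    rw [e6]
    exact Nat.add_le_add_right hx.1 _
  have e4 : p ≤ p + 601088 := Nat.le_add_right _ _
  have e5 : p + 601088 ≤ p + 2 * 601088 := Nat.add_le_add_left (by norm_num) p
  have hm1 := Nat.monotone_primeCounting e1
  have hm2 := Nat.monotone_primeCounting e2
  have hm3 := Nat.monotone_primeCounting e3
  have hm4 := Nat.monotone_primeCounting e4
  have hm5 := Nat.monotone_primeCounting e5
  omega

end Pool.Agent.Results.MP_d7b30a_nt.NoEqualWindows
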